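import Pool.Agent.TH192.MU.TopZ
import Pool.Agent.TH192.MU.Uni

set_option autoImplicit false

/-! # The weak monodromy conjecture for topological zeta functions of determinantal forms

Let `x` be the generic matrix of one of the three spaces `S` of matrices: all `m × n` matrices, the
symmetric `n × n` matrices, the skew symmetric `n × n` matrices (`MSpace`). Its minors of size `k`
(Pfaffians of size `2 k` in the skew symmetric case) are considered for `k < min (m, n)`, `k < n`,
or `2 k + 1 < n` (`Small`). Two families of polynomials, with non-isolated singularities and in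
arbitrarily many variables:

* `f = ∏ t, F_t ^ a t`, `a t > 0`, where `F_t = ∑_j y_{t,j} M_{t,j}(x)`, the `M_{t,j}` are the minors
  (Pfaffians) of size `p t` (`2 (p t)`), and the `y_{t,j}` are further variables, separate for each
  `t` (`detForm`);
* `F = ∑_j y_j M_j(x)`, where the `M_j` are the products of one minor (Pfaffian) of size `p t` for
  each `t`, and the `y_j` are further variables (`detUniv`).

The topological zeta function is defined as by Denef and Loeser, from the motivic zeta function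
`Z_mot(T) = ∑_d [X_d] 𝕃 ^ (-n d) T ^ d` in `𝓜[[T]]`, `X_d` the `d`-jets on which `f` has the order `d`
(`zetaM f Set.univ {c | c ≠ 0}`), `𝓜` the Grothendieck ring of complex varieties, localised at `𝕃`:
`Z_top(s) = χ(Z_mot(𝕃 ^ (-s)))` for `s = 1, 2, 3, …`. For this, let `E` be a homomorphism from `𝓜` to a
domain `R` with `E(𝕃) ≠ 1`, such as the Hodge-Deligne polynomial `E(u, v)`, and `ε` a homomorphism from
`R` to `ℂ` with `ε(E(𝕃)) = 1`, such as `u, v ↦ 1`, so that `ε ∘ E` is the Euler characteristic `χ`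
(`IsTopZeta`).

Everything comes from the starting library `Pool.Agent.TH192`; no resolution is used: the motivic
zeta function is in the ring generated by `T` and the `(𝕃 - 1) / (1 - 𝕃 ^ (-ν) T ^ N)`, `(-ν, N)` the
pairs `(-ν_d, N_d)` and `(-1, a t)`, `ν_d` the codimension of the matrices of rank `≤ d` (`≤ 2 d`),
`N_d = ∑ t, a t max (p t - d, 0)`. -/

namespace Pool.Agent.Results.MP_a2a574_ag.DeterminantalForms

open MvPolynomial Pool.Agent.H628R4.TP Pool.Agent.TH192.DT Pool.Agent.TH192.MT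
  Pool.Agent.TH192.MU Pool.Agent.W428.MOT

/-- **The global topological zeta functions of the determinantal forms** `f = ∏ t, F_t ^ a t` (first
part) and `F = ∑ y_j M_j` (second part). There is exactly one rational function `Z` with
`Z(s) = ε(E(Z_mot(𝕃 ^ (-s))))` for `s = 1, 2, 3, …`; each of its poles `s₀` is one of the numbers
`-ν_d / N_d` and `-1 / a t` (`-1` for `F`), and it is a root of every `b` with
`b(s) f ^ s = P(s) f ^ (s + 1)`, in particular of the Bernstein-Sato polynomial. Hence, by the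
theorem of Malgrange and Kashiwara (which is not formalised), `exp(2 π i s₀)` is a monodromy
eigenvalue of `f`, and of `F`. -/
theorem result (S : MSpace) (T : ℕ) (p : Fin T → ℕ) (hp : ∀ t, S.Small (p t))
    (R : Type) [CommRing R] [IsDomain R] (E : MK ℂ →+* R) (ε : R →+* ℂ)
    (hε : ε (E ((Lu ℂ : (MK ℂ)ˣ) : MK ℂ)) = 1) (hE : E ((Lu ℂ : (MK ℂ)ˣ) : MK ℂ) ≠ 1) :
    (∀ a : Fin T → ℕ, (∀ t, 0 < a t) → ∃ Z : RatFunc ℂ,
      IsTopZeta E ε (zetaM (map (Int.castRingHom ℂ) (detForm S p a)) Set.univ {c | c ≠ 0}) Z ∧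
      (∀ Z', IsTopZeta E ε
        (zetaM (map (Int.castRingHom ℂ) (detForm S p a)) Set.univ {c | c ≠ 0}) Z' → Z' = Z) ∧
      ∀ s₀ : ℂ, Z.denom.eval s₀ = 0 →
        (∃ q ∈ formPairs S p a, s₀ = (q.1 : ℂ) / q.2) ∧
        ∀ b : Polynomial ℂ, IsBFunction (map (Int.castRingHom ℂ) (detForm S p a)) b →
          b.eval s₀ = 0) ∧
    ∃ Z : RatFunc ℂ,
      IsTopZeta E ε (zetaM (map (Int.castRingHom ℂ) (detUniv S p)) Set.univ {c | c ≠ 0}) Z ∧
      (∀ Z', IsTopZeta E ε
        (zetaM (map (Int.castRingHom ℂ) (detUniv S p)) Set.univ {c | c ≠ 0}) Z' → Z' = Z) ∧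
      ∀ s₀ : ℂ, Z.denom.eval s₀ = 0 →
        (∃ q ∈ univPairs S p, s₀ = (q.1 : ℂ) / q.2) ∧
        ∀ b : Polynomial ℂ, IsBFunction (map (Int.castRingHom ℂ) (detUniv S p)) b →
          b.eval s₀ = 0 := by
  refine ⟨fun a ha => ?_, ?_⟩
  · obtain ⟨Z, h1, h2, h3⟩ := form_top S T p a hp ha Constr.univ E ε hε hE
    refine ⟨Z, h1, h2, fun s₀ hs => ?_⟩
    obtain ⟨q, hq, rfl⟩ := h3 s₀ hs
    exact ⟨⟨q, hq, rfl⟩, (form_roots S T p a hp ha q hq).2.2.1⟩
  · obtain ⟨Z, h1, h2, h3⟩ := univ_top S T p hp Constr.univ E ε hε hE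
    refine ⟨Z, h1, h2, fun s₀ hs => ?_⟩
    obtain ⟨q, hq, rfl⟩ := h3 s₀ hs
    exact ⟨⟨q, hq, rfl⟩, (univ_roots S T p hp q hq).2.2.1⟩

end Pool.Agent.Results.MP_a2a574_ag.DeterminantalForms
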