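import Mathlib
import Pool.Agent.Y229.PS.Weak

/-!
# The weak monodromy conjecture for polynomials with stably nondegenerate germs

A germ `f(x)`, `f(0) = 0`, `x = (x_1, …, x_N)`, of a holomorphic function (or a formal power series) is
called stably nondegenerate if for some `k` the function `f(x) + y_1 z_1 + ⋯ + y_k z_k` becomes, in
suitable formal coordinates at the origin and up to a unit factor, a polynomial which is
nondegenerate with respect to the compact faces of its Newton polyhedron (the usual local
nondegeneracy). Examples are smooth points and normal crossings, the functions which are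
nondegenerate in suitable coordinates (`k = 0`), and those which become nondegenerate after an
embedding of the germ `(ℂ ^ N, 0)` as a nondegenerate complete intersection (second part of the
theorem), for example `(x_2 ^ 2 - x_1 ^ 3) ^ 2 + x_1 ^ 5 x_2` with `z = x_2 ^ 2 - x_1 ^ 3`.

Let `f ∈ ℂ[x_1, …, x_N]` be a non-constant polynomial all of whose germs at the points of
`D = {f = 0}` are stably nondegenerate; different coordinates, and different numbers `k`, may be
used at different points, and no condition is imposed on the global Newton polytope of `f`.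
By additivity of the Euler characteristic the global topological zeta function of `f` is
`Z(s) = χ(ℂ ^ N ∖ D) + χ(S_0) / (s + 1) + ∑_t χ(S_t) Z_t(s)`
for a finite partition of `D` in locally closed sets: `S_0` the smooth points, and sets `S_t` such
that `Z_t` is the local topological zeta function of `f` at every point of `S_t`. The local
zeta functions `Z_f` of a germ `f` and `Z` of `f + y_1 z_1 + ⋯ + y_k z_k` are related by
`1 - Z_f(s) = (1 - Z(s - k)) s (s - k + 1) / ((s - k) (s + 1))`, and `Z` is given by the formula of
Denef and Loeser for the Newton polyhedron. The theorem: every pole `s0` of `Z(s)` satisfies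
`b_f(s0 - i) = 0` for some natural number `i`, so that `exp(2 π i s0)` is a monodromy eigenvalue of `f`
(Malgrange, Kashiwara).

Method (library of the starting files, helper229 and others, see the starting result
`MP_b22d1f_ag.StablyNondegenerateGermsTwisted` on the local Bernstein-Sato polynomials): a functional
equation of `f` gives one of `f + ∑ y_i z_i` at each point, which is transported to the coordinates
where the polynomial is nondegenerate; there it is deformed to very general coefficients
(`Y229.CF`), and the relation obtained gives the pole part of the zeta function.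
-/

set_option autoImplicit false

namespace Pool.Agent.Results.MP_a2a574_ag.StablyNondegenerateGermsGlobal

open Polynomial Pool.Agent.H628R4.TZ Pool.Agent.H628R4.TP Pool.Agent.W425.SM
open Pool.Agent.W422.GC (topZetaGLocal)
open Pool.Agent.Y229.CF (NondegIC)
open Pool.Agent.Y229.GL (glue)
open Pool.Agent.Y229.RE (unstab ex trans)
open Pool.Agent.Y229.PS (StabNondegP)
open Pool.Agent.W749.JI (fam)

/-- **The weak monodromy conjecture for the global topological zeta functions of all polynomials
whose germs are stably nondegenerate in suitable formal coordinates.**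

First part: let `f ∈ ℂ[x_1, …, x_N]` be non-constant, and let `b ≠ 0` be a polynomial with
`IsBFunction f b`: `b(s) f ^ s = P(s) f ^ (s + 1)` for a differential operator `P(s)` in the Weyl
algebra, polynomial in `s` (for example `b = b_f`). For `t = 1, …, n` let `p t` be a zero of `f`
such that the germ `trans (p t) f = f(p_t + x)` is stably nondegenerate
(`StabNondegP (trans (p t) f) (k t) (v t)`: `f(p_t + x) + ∑_{i ≤ k_t} y_i z_i` becomes in suitable formal
coordinates at the origin, up to a unit factor, a polynomial `g_t = ∑_j a_j X ^ (v t j)` which is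
nondegenerate for the compact faces of its Newton polyhedron). Let `topZetaGLocal (v t) (R t)` be
the local topological zeta function of `g_t` at the origin, computed on the toric embedded
resolution given by any smooth fan `R t` on which `(X ^ (v t j))_j` is principal, and
`Z_t = unstab (k t) 1 (topZetaGLocal (v t) (R t))` that of `f` at `p t`. Then every pole `s0` with
negative real part (all the poles are negative rational numbers) of
`Z = c + c' / (s + 1) + ∑_t χ_t Z_t`, `c`, `c'`, `χ_t` arbitrary integers (`glue 1 c c' χ Z`),
satisfies `b(s0 - i) = 0` for some `i ∈ ℕ`.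

Second part: let `fam π m c i = ∑_{π j = i} c_j x ^ (m_j)`, `i = 0, …, k`, be polynomials in `N + k`
variables `x, z` without constant terms: `F = fam π m c 0`, `l_i = fam π m c i` for `i ≥ 1`. Let
`(F, l_1, …, l_k)` be nondegenerate for the compact faces of their Newton polyhedra (`NondegIC`), let
the matrix of the `∂ l_i / ∂ z_j` be invertible at the origin, so that `V = {l = 0}` is smooth with
coordinates `x`, and let the restriction of `F` to `V` be the germ of `f` at `p`:
`F = f(p + x) + ∑ q_i l_i` with formal power series `q_i`, `q_i(0) = 0`. Then the germ of `f` at `p` is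
stably nondegenerate, with the exponents of `F + ∑ y_i l_i` (`ex π m`). -/
theorem result :
    (∀ {N n : ℕ} (f : MvPolynomial (Fin N) ℂ), f.totalDegree ≠ 0 → ∀ b : ℂ[X], b ≠ 0 →
      IsBFunction f b → ∀ p : Fin n → Fin N → ℂ, (∀ t, MvPolynomial.eval (p t) f = 0) →
      ∀ k r : Fin n → ℕ, (∀ t, 1 ≤ r t) → ∀ v : ∀ t, Fin (r t) → Fin (N + (k t + k t)) → ℕ,
      (∀ t, StabNondegP (trans (p t) f : MvPowerSeries (Fin N) ℂ) (k t) (v t)) →
      ∀ R : ∀ t, SmoothFan (N + (k t + k t)), (∀ t, Principal (v t) (R t)) →
      ∀ (c c' : ℤ) (χ : Fin n → ℤ) (s0 : ℂ), s0.re < 0 →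
        (glue 1 c c' χ fun t => unstab (k t) 1 (topZetaGLocal (v t) (R t))).denom.eval s0 = 0 →
        ∃ i : ℕ, b.eval (s0 - i) = 0) ∧
    (∀ {N k r : ℕ} (π : Fin r → Fin (k + 1)) (m : Fin r → Fin (N + k) → ℕ) (c : Fin r → ℂ),
      1 ≤ r → (∀ j j', π j = π j' → m j = m j' → j = j') → (∀ j, m j ≠ 0) → NondegIC π m c →
      (Matrix.of fun i j : Fin k => MvPolynomial.coeff (Finsupp.single (Fin.natAdd N j) 1)
        (fam π m c i.succ)).det ≠ 0 →
      ∀ (f : MvPolynomial (Fin N) ℂ) (p : Fin N → ℂ)
        (q : Fin k → MvPowerSeries (Fin (N + k)) ℂ),
        (∀ i, MvPowerSeries.constantCoeff (q i) = 0) →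
        (fam π m c 0 : MvPowerSeries (Fin (N + k)) ℂ) =
          MvPowerSeries.rename (Fin.castAdd k) (trans p f : MvPowerSeries (Fin N) ℂ) +
            ∑ i, q i * (fam π m c i.succ : MvPowerSeries (Fin (N + k)) ℂ) →
        StabNondegP (trans p f : MvPowerSeries (Fin N) ℂ) k (ex π m)) := by
  refine ⟨?_, ?_⟩
  · intro N n f hf b hb0 hb p hp k r hr v hv R hR c c' χ s0 hre hs
    exact Pool.Agent.Y229.PS.global_stabP f hf b hb0 hb p hp k r hr v hv R hR c c' χ s0 hre hs
  · intro N k r π m c hr hinj hm hnd hdet f p q hq hF
    exact Pool.Agent.Y229.PS.stabP_of_emb hr π m hinj hm c hnd hdet _ q hq hF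

end Pool.Agent.Results.MP_a2a574_ag.StablyNondegenerateGermsGlobal
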